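import Pool.Agent.Helper856.Cw.Width
import Pool.Agent.Helper856.Pair.AsmF

set_option autoImplicit false

open SimpleGraph Pool.Agent.Helper856.Lcw Pool.Agent.Helper856.Cw

namespace Pool.Agent.H221R2.CwBasic

theorem nonempty_of_built {k : ℕ} {W : Type} {G' : SimpleGraph W} {l : W → Fin k}
    (hb : CwBuilt k W G' l) : Nonempty W := by
  induction hb with
  | single i => exact ⟨()⟩
  | union V W G H l m _ _ ih1 _ => obtain ⟨v⟩ := ih1; exact ⟨Sum.inl v⟩
  | join V G l i j _ _ ih => exact ih
  | relabel V G l i j _ ih => exact ih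

/-- Clique-width is at most linear clique-width. -/
theorem cliqueWidth_le {V : Type} [Finite V] (G : SimpleGraph V) :
    cliqueWidth G ≤ linearCliqueWidth G := by
  cases isEmpty_or_nonempty V with
  | inl hV =>
    have h1 : {k | CwLE G k} = ∅ := by
      ext k
      refine iff_of_false ?_ (Set.notMem_empty k)
      rintro ⟨W, G', l, hb, ⟨e⟩⟩
      have hW : IsEmpty W := e.symm.toEquiv.isEmpty
      obtain ⟨w⟩ := nonempty_of_built hb
      exact hW.false w
    unfold cliqueWidth
    rw [h1]
    simp
  | inr hV =>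
    have h : LcwLE G (linearCliqueWidth G) := Nat.sInf_mem (exists_lcwLE G)
    exact Nat.sInf_le (cwLE_of_lcwLE h)

end Pool.Agent.H221R2.CwBasic
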