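import Mathlib
import Pool.Agent.Helper997.TreeMetric

/-!
Weighted tree metrics: four-point condition, geodesics.
-/

set_option autoImplicit false

namespace Pool.Agent.H221R2.WTree

open Pool.Agent.Helper997.TreeMetric

/-- `d` is the path metric of the tree `T` with positive edge lengths `w`. -/
structure WT {W : Type} (T : SimpleGraph W) (w : Sym2 W → ℝ) (d : W → W → ℝ) : Prop where
  tree : T.IsTree
  pos : ∀ e ∈ T.edgeSet, 0 < w e
  path : ∀ (x y : W) (p : T.Walk x y), p.IsPath → d x y = (p.edges.map w).sum

variable {W : Type} {T : SimpleGraph W} {w : Sym2 W → ℝ} {d : W → W → ℝ}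

lemma WT.self (h : WT T w d) (x : W) : d x x = 0 := by
  rw [h.path x x .nil SimpleGraph.Walk.IsPath.nil]
  simp

lemma WT.symm (h : WT T w d) (x y : W) : d x y = d y x := by
  obtain ⟨p, hp, _⟩ := h.tree.connected.exists_path_of_dist x y
  rw [h.path x y p hp, h.path y x p.reverse hp.reverse]
  simp [SimpleGraph.Walk.edges_reverse, List.map_reverse, List.sum_reverse]

lemma WT.nonneg (h : WT T w d) (x y : W) : 0 ≤ d x y := by
  obtain ⟨p, hp, _⟩ := h.tree.connected.exists_path_of_dist x y
  rw [h.path x y p hp]
  apply List.sum_nonneg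
  intro a ha
  obtain ⟨e, he, rfl⟩ := List.mem_map.mp ha
  exact (h.pos e (p.edges_subset_edgeSet he)).le

lemma WT.add (h : WT T w d) {x y z : W} (hd : T.dist x z = T.dist x y + T.dist y z) :
    d x z = d x y + d y z := by
  obtain ⟨p, hp, hp'⟩ := h.tree.connected.exists_path_of_dist x y
  obtain ⟨q, hq, hq'⟩ := h.tree.connected.exists_path_of_dist y z
  have e1 : (p.append q).IsPath := by
    apply SimpleGraph.Walk.isPath_of_length_eq_dist
    rw [SimpleGraph.Walk.length_append, hp', hq', hd]
  rw [h.path x z _ e1, h.path x y p hp, h.path y z q hq, SimpleGraph.Walk.edges_append,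
    List.map_append, List.sum_append]

lemma WT.step_near (h : WT T w d) {x x' z : W} (hadj : T.Adj x x')
    (hz : T.dist x z = T.dist x' z + 1) : d x z = d x x' + d x' z := by
  apply h.add
  rw [SimpleGraph.dist_eq_one_iff_adj.mpr hadj, hz, add_comm]

lemma WT.tri (h : WT T w d) : ∀ (n : ℕ) (x y z : W), T.dist x y = n →
    d x z ≤ d x y + d y z := by
  intro n
  induction n with
  | zero =>
    intro x y z hxy
    have : x = y := h.tree.connected.dist_eq_zero_iff.mp hxy
    subst this
    rw [h.self]
    linarith
  | succ n ih =>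
    intro x y z hxy
    obtain ⟨x', hadj, hx'⟩ := exists_step h.tree.connected hxy
    have e1 := h.step_near hadj (by omega : T.dist x y = T.dist x' y + 1)
    have e2 := ih x' y z hx'
    have e3 := h.nonneg x x'
    rcases step_cases h.tree z hadj with hz | hz
    · have := h.step_near hadj hz
      linarith
    · have e4 := h.step_near hadj.symm hz
      have e5 := h.nonneg x' x
      linarith

lemma WT.four (h : WT T w d) : ∀ (n : ℕ) (x y z w' : W), T.dist x y = n →
    d x y + d z w' ≤ d x z + d y w' ∨ d x y + d z w' ≤ d x w' + d y z := by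
  intro n
  induction n with
  | zero =>
    intro x y z w' hxy
    have : x = y := h.tree.connected.dist_eq_zero_iff.mp hxy
    subst this
    have t := h.tri _ z x w' rfl
    rw [h.symm z x] at t
    left
    rw [h.self]
    linarith
  | succ n ih =>
    intro x y z w' hxy
    obtain ⟨x', hadj, hx'⟩ := exists_step h.tree.connected hxy
    have e1 := h.step_near hadj (by omega : T.dist x y = T.dist x' y + 1)
    have key : ∀ z w', T.dist x' z = T.dist x z + 1 → d x y + d z w' ≤ d x w' + d y z := by
      intro z w' hz
      have h1 : T.dist x y = T.dist x' y + 1 := by omega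
      have h2 := through_edge h.tree hadj hz _ y rfl h1
      rw [SimpleGraph.dist_comm (u := x) (v := y)] at h2
      have h3 := h.add h2
      have t := h.tri _ z x w' rfl
      rw [h.symm z x] at t
      rw [h.symm y x] at h3
      linarith
    rcases step_cases h.tree z hadj with hz | hz
    · rcases step_cases h.tree w' hadj with hw | hw
      · have e2 := h.step_near hadj hz
        have e3 := h.step_near hadj hw
        rcases ih x' y z w' hx' with h4 | h4
        · left; linarith
        · right; linarith
      · left
        have := key w' z hw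
        rw [h.symm w' z] at this
        exact this
    · right
      exact key z w' hz

lemma WT.four' (h : WT T w d) (x y z u : W) :
    d x y + d z u ≤ d x z + d y u ∨ d x y + d z u ≤ d x u + d y z :=
  h.four _ x y z u rfl

lemma WT.tri' (h : WT T w d) (x y z : W) : d x z ≤ d x y + d y z := h.tri _ x y z rfl

/-- Walking from `a ∈ S` to `b ∉ S` there is a last edge leaving `S`. -/
lemma exists_exit (hT : T.IsTree) (S : Set W) : ∀ (n : ℕ) (a b : W), T.dist a b = n → a ∈ S →
    b ∉ S → ∃ x x', T.Adj x x' ∧ x ∈ S ∧ x' ∉ S ∧ T.dist a b = T.dist a x + 1 + T.dist x' b := by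
  intro n
  induction n with
  | zero =>
    intro a b hab ha hb
    have : a = b := hT.connected.dist_eq_zero_iff.mp hab
    exact absurd (this ▸ ha) hb
  | succ n ih =>
    intro a b hab ha hb
    obtain ⟨a', hadj, ha'⟩ := exists_step hT.connected hab
    by_cases hmem : a' ∈ S
    · obtain ⟨x, x', h1, h2, h3, h4⟩ := ih a' b ha' hmem hb
      refine ⟨x, x', h1, h2, h3, ?_⟩
      have e1 : T.dist a x ≤ T.dist a a' + T.dist a' x := hT.connected.dist_triangle
      have e2 : T.dist a a' = 1 := SimpleGraph.dist_eq_one_iff_adj.mpr hadj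
      have e3 : T.dist a b ≤ T.dist a x + T.dist x b := hT.connected.dist_triangle
      have e4 : T.dist x b ≤ T.dist x x' + T.dist x' b := hT.connected.dist_triangle
      have e5 : T.dist x x' = 1 := SimpleGraph.dist_eq_one_iff_adj.mpr h1
      omega
    · refine ⟨a, a', hadj, ha, hmem, ?_⟩
      rw [SimpleGraph.dist_self]
      omega

/-- Two points on the geodesic from `a` to `b`. -/
lemma WT.on_seg (h : WT T w d) {a b x y : W} (hx : d a x + d x b = d a b)
    (hy : d a y + d y b = d a b) (hxy : d a y ≤ d a x) : d x y = d a x - d a y := by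
  have h4 := h.four' x y a b
  have t1 := h.tri' a y x
  have s1 := h.symm x a
  have s2 := h.symm y a
  have s3 := h.symm y x
  apply le_antisymm
  · rcases h4 with h5 | h5 <;> linarith
  · linarith

/-- The exit point of a ball. Here `a`, `a'` is a diametral pair of the ball with centre `c` and
radius `r`, all boundary points of the ball are vertices, and `b` is outside and at maximal
distance from `a` among `a`, `a'`. -/
lemma WT.exit (h : WT T w d) {c : W} {r : ℝ} (hr : ∀ x y, T.Adj x y → d c x < r → d c y ≤ r)
    {a a' b : W} (ha : d c a ≤ r) (ha' : d c a' ≤ r)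
    (hmax : ∀ x y, d c x ≤ r → d c y ≤ r → d x y ≤ d a a') (hb : d a' b ≤ d a b)
    (hlt : d a a' < d a b) :
    ∃ x, d c x ≤ r ∧ d a x = d a a' ∧ d a x + d x b = d a b := by
  have hbS : b ∉ {x | d c x ≤ r} := fun hb' => absurd (hmax a b ha hb') (not_le.mpr hlt)
  obtain ⟨x, x', hadj, hx, hx', hd⟩ := exists_exit h.tree {x | d c x ≤ r} _ a b rfl ha hbS
  simp only [Set.mem_setOf_eq, not_le] at hx hx'
  have e1 : T.dist x x' = 1 := SimpleGraph.dist_eq_one_iff_adj.mpr hadj
  have t1 : T.dist a b ≤ T.dist a x + T.dist x b := h.tree.connected.dist_triangle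
  have t2 : T.dist x b ≤ T.dist x x' + T.dist x' b := h.tree.connected.dist_triangle
  have t3 : T.dist a b ≤ T.dist a x' + T.dist x' b := h.tree.connected.dist_triangle
  have t4 : T.dist a x' ≤ T.dist a x + T.dist x x' := h.tree.connected.dist_triangle
  have hxb : T.dist x b = T.dist x' b + 1 := by omega
  have hax' : T.dist a x' = T.dist a x + 1 := by omega
  have hab : T.dist a b = T.dist a x + T.dist x b := by omega
  have hDab := h.add hab
  have hcx : r ≤ d c x := by
    by_contra hcon
    push Not at hcon
    exact absurd (hr x x' hadj hcon) (not_le.mpr hx')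
  refine ⟨x, hx, ?_, hDab.symm⟩
  apply le_antisymm (hmax a x ha hx)
  have c1 := h.symm a c
  have c2 := h.symm a' c
  rcases step_cases h.tree a' hadj with hz | hz
  · -- `a'` on the side of `x'`
    exfalso
    have h2 := through_edge h.tree hadj (z := a) (by
      rw [SimpleGraph.dist_comm (u := x'), SimpleGraph.dist_comm (u := x)]; exact hax') _ a' rfl hz
    have e2 : T.dist a a' = T.dist a x' + T.dist x' a' := by
      rw [SimpleGraph.dist_comm (u := a) (v := a'), h2, hax', SimpleGraph.dist_comm (u := a) (v := x)]
      omega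
    have e3 := h.add e2
    have e4 := h.nonneg a x'
    have e5 := h.nonneg x' a'
    have h4 := h.four' c x' a a'
    rcases h4 with h5 | h5 <;> linarith [h.symm x' a]
  · -- `a'` on the side of `x`
    have h2 := through_edge h.tree hadj hz _ b rfl hxb
    have e2 : T.dist a' b = T.dist a' x + T.dist x b := by
      rw [SimpleGraph.dist_comm (u := a') (v := b), h2, SimpleGraph.dist_comm (u := a') (v := x)]
      omega
    have e3 := h.add e2
    have e4 : d a' x ≤ d a x := by linarith
    have h4 := h.four' a a' c x
    rcases h4 with h5 | h5 <;> linarith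

end Pool.Agent.H221R2.WTree
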