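import Mathlib
import Pool.Agent.H221R2.WTree
import Pool.Agent.Helper997.NeST
import Pool.Agent.Helper850.RC.P_ramsey

/-!
A tolerance graph that is not a bounded NeST graph.
-/

set_option autoImplicit false

namespace Pool.Agent.H221R2.TolNest

open Pool.Agent.Helper997.NeST Pool.Agent.H221R2.WTree

/-! ### The obstruction: a cyclic pattern of eight vertices -/

section Core

variable {V : Type} {D : V → V → ℝ}

/-- Eight vertices `l x₁ p x₂ p' x₃ r z` in cyclic order such that consecutive ones are joined by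
paths and non-consecutive corners are disjoint do not exist. -/
lemma no_eight (h : TreeLike D) {x₁ x₂ x₃ z l p p' r : V}
    (a1 : Split D x₁ l x₃ p') (a2 : Split D x₁ l x₃ r) (a3 : Split D x₁ p x₃ p')
    (a4 : Split D x₁ p x₃ r) (b1 : Split D x₂ p z l) (b2 : Split D x₂ p z r)
    (b3 : Split D x₂ p' z l) (b4 : Split D x₂ p' z r) : False := by
  set s := min (D p' x₁ - D p' x₃) (D r x₁ - D r x₃) with hs
  have hp' : ¬ LeftOf D x₁ x₃ s p' := by
    unfold LeftOf
    push Not
    exact min_le_left _ _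
  have hr : ¬ LeftOf D x₁ x₃ s r := by
    unfold LeftOf
    push Not
    exact min_le_right _ _
  have key : ∀ v v', Split D x₁ v x₃ v' → D v x₁ - D v x₃ < D v' x₁ - D v' x₃ := by
    intro v v' hsp
    have h1 := hsp.right
    rw [h.symm x₁ v, h.symm x₃ v', h.symm x₁ v'] at h1
    linarith
  have hl : LeftOf D x₁ x₃ s l := lt_min (key _ _ a1) (key _ _ a2)
  have hp : LeftOf D x₁ x₃ s p := lt_min (key _ _ a3) (key _ _ a4)
  by_cases hx : LeftOf D x₁ x₃ s x₂ <;> by_cases hz : LeftOf D x₁ x₃ s z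
  · exact no_double_cross h b4 (fun e => hp' (e.mp hx)) (fun e => hr (e.mp hz))
  · exact no_double_cross h b3 (fun e => hp' (e.mp hx)) (fun e => hz (e.mpr hl))
  · exact no_double_cross h b2 (fun e => hx (e.mpr hp)) (fun e => hr (e.mp hz))
  · exact no_double_cross h b1 (fun e => hx (e.mpr hp)) (fun e => hz (e.mpr hl))

end Core

/-! ### From representations on weighted trees to tree-like functions -/

section Conv

variable {W : Type} {T : SimpleGraph W} {w : Sym2 W → ℝ} {d : W → W → ℝ}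

/-- The larger distance. -/
noncomputable def mx (d : W → W → ℝ) (P Q : W × W) : ℝ :=
  max (max (d P.1 Q.1) (d P.1 Q.2)) (max (d P.2 Q.1) (d P.2 Q.2))

lemma mx_attained (d : W → W → ℝ) (P Q : W × W) :
    ∃ a b, (a = P.1 ∨ a = P.2) ∧ (b = Q.1 ∨ b = Q.2) ∧ mx d P Q = d a b := by
  unfold mx
  rcases max_choice (max (d P.1 Q.1) (d P.1 Q.2)) (max (d P.2 Q.1) (d P.2 Q.2)) with h | h <;>
    rw [h]
  · rcases max_choice (d P.1 Q.1) (d P.1 Q.2) with h | h <;> rw [h]
    · exact ⟨_, _, Or.inl rfl, Or.inl rfl, rfl⟩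
    · exact ⟨_, _, Or.inl rfl, Or.inr rfl, rfl⟩
  · rcases max_choice (d P.2 Q.1) (d P.2 Q.2) with h | h <;> rw [h]
    · exact ⟨_, _, Or.inr rfl, Or.inl rfl, rfl⟩
    · exact ⟨_, _, Or.inr rfl, Or.inr rfl, rfl⟩

lemma le_mx (d : W → W → ℝ) {P Q : W × W} {a b : W} (ha : a = P.1 ∨ a = P.2)
    (hb : b = Q.1 ∨ b = Q.2) : d a b ≤ mx d P Q := by
  unfold mx
  rcases ha with rfl | rfl <;> rcases hb with rfl | rfl
  · exact (le_max_left _ _).trans (le_max_left _ _)
  · exact (le_max_right _ _).trans (le_max_left _ _)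
  · exact (le_max_left _ _).trans (le_max_right _ _)
  · exact (le_max_right _ _).trans (le_max_right _ _)

/-- The tree-like function of the diametral pairs `P v`. -/
noncomputable def DD {V : Type} (d : W → W → ℝ) (P : V → W × W) (x y : V) : ℝ :=
  mx d (P x) (P y) - d (P x).1 (P x).2 - d (P y).1 (P y).2

lemma DD_treeLike {V : Type} (h : WT T w d) (P : V → W × W) : TreeLike (DD d P) where
  symm x y := by
    have : mx d (P x) (P y) = mx d (P y) (P x) := by
      unfold mx
      rw [h.symm (P x).1 (P y).1, h.symm (P x).1 (P y).2, h.symm (P x).2 (P y).1,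
        h.symm (P x).2 (P y).2]
      rw [max_max_max_comm]
    unfold DD
    rw [this]
    ring
  four x y z u := by
    obtain ⟨a, b, ha, hb, hab⟩ := mx_attained d (P x) (P y)
    obtain ⟨c, e, hc, he, hce⟩ := mx_attained d (P z) (P u)
    unfold DD
    rw [hab, hce]
    have h1 := le_mx d ha hc
    have h2 := le_mx d hb he
    have h3 := le_mx d ha he
    have h4 := le_mx d hb hc
    rcases h.four' a b c e with h5 | h5
    · apply le_max_of_le_left
      linarith
    · apply le_max_of_le_right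
      linarith

/-- The adjacency rule. -/
lemma inter_iff (h : WT T w d) {c₁ c₂ : W} {r₁ r₂ : ℝ} {P₁ P₂ : W × W}
    (hr₁ : ∀ x y, T.Adj x y → d c₁ x < r₁ → d c₁ y ≤ r₁)
    (hr₂ : ∀ x y, T.Adj x y → d c₂ x < r₂ → d c₂ y ≤ r₂)
    (p1 : d c₁ P₁.1 ≤ r₁) (p2 : d c₁ P₁.2 ≤ r₁)
    (pm : ∀ x y, d c₁ x ≤ r₁ → d c₁ y ≤ r₁ → d x y ≤ d P₁.1 P₁.2)
    (q1 : d c₂ P₂.1 ≤ r₂) (q2 : d c₂ P₂.2 ≤ r₂)
    (qm : ∀ x y, d c₂ x ≤ r₂ → d c₂ y ≤ r₂ → d x y ≤ d P₂.1 P₂.2)
    {m : ℝ} (hm : 0 ≤ m) (h1 : m ≤ d P₁.1 P₁.2) (h2 : m ≤ d P₂.1 P₂.2) :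
    (∃ x y, d c₁ x ≤ r₁ ∧ d c₂ x ≤ r₂ ∧ d c₁ y ≤ r₁ ∧ d c₂ y ≤ r₂ ∧ m ≤ d x y) ↔
      mx d P₁ P₂ - d P₁.1 P₁.2 - d P₂.1 P₂.2 ≤ - m := by
  obtain ⟨a, b, ha, hb, hab⟩ := mx_attained d P₁ P₂
  -- the partners of `a` and `b`
  obtain ⟨a', ha', haa⟩ : ∃ a', (a' = P₁.1 ∨ a' = P₁.2) ∧ d a a' = d P₁.1 P₁.2 := by
    rcases ha with rfl | rfl
    · exact ⟨_, Or.inr rfl, rfl⟩
    · exact ⟨_, Or.inl rfl, h.symm _ _⟩
  obtain ⟨b', hb', hbb⟩ : ∃ b', (b' = P₂.1 ∨ b' = P₂.2) ∧ d b b' = d P₂.1 P₂.2 := by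
    rcases hb with rfl | rfl
    · exact ⟨_, Or.inr rfl, rfl⟩
    · exact ⟨_, Or.inl rfl, h.symm _ _⟩
  have inP : ∀ {u}, (u = P₁.1 ∨ u = P₁.2) → d c₁ u ≤ r₁ := by
    rintro u (rfl | rfl)
    · exact p1
    · exact p2
  have inQ : ∀ {u}, (u = P₂.1 ∨ u = P₂.2) → d c₂ u ≤ r₂ := by
    rintro u (rfl | rfl)
    · exact q1
    · exact q2
  have m1 : d a' b ≤ d a b := by rw [← hab]; exact le_mx d ha' hb
  have m2 : d b' a ≤ d b a := by
    rw [h.symm b a, h.symm b' a, ← hab]
    exact le_mx d ha hb'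
  constructor
  · rintro ⟨x, y, x1, x2, y1, y2, hxy⟩
    rw [hab]
    have e1 := pm a x (inP ha) x1
    have e2 := pm a y (inP ha) y1
    have e3 := qm b x (inQ hb) x2
    have e4 := qm b y (inQ hb) y2
    rcases h.four' a b x y with h5 | h5 <;> linarith
  · intro hle
    rw [hab] at hle
    -- membership in a ball of points near both ends of a diametral pair
    have mem1 : ∀ z, d a z ≤ d a a' → d a' z ≤ d a a' → d c₁ z ≤ r₁ := by
      intro z hz1 hz2
      have e1 := inP ha
      have e2 := inP ha'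
      have s1 := h.symm z a
      have s2 := h.symm z a'
      rcases h.four' c₁ z a a' with h5 | h5 <;> linarith
    have mem2 : ∀ z, d b z ≤ d b b' → d b' z ≤ d b b' → d c₂ z ≤ r₂ := by
      intro z hz1 hz2
      have e1 := inQ hb
      have e2 := inQ hb'
      have s1 := h.symm z b
      have s2 := h.symm z b'
      rcases h.four' c₂ z b b' with h5 | h5 <;> linarith
    by_cases hc1 : d a b ≤ d a a'
    · have n1 : d a b' ≤ d a b := by rw [← hab]; exact le_mx d ha hb'
      have n2 : d a' b' ≤ d a b := by rw [← hab]; exact le_mx d ha' hb'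
      refine ⟨b, b', mem1 b (by linarith) (by linarith), inQ hb,
        mem1 b' (by linarith) (by linarith), inQ hb', by linarith⟩
    by_cases hc2 : d a b ≤ d b b'
    · have n1 : d a' b ≤ d a b := m1
      have n2 : d a' b' ≤ d a b := by rw [← hab]; exact le_mx d ha' hb'
      have n3 : d a b' ≤ d a b := by rw [← hab]; exact le_mx d ha hb'
      have s1 := h.symm b a
      have s2 := h.symm b' a
      have s3 := h.symm b a'
      have s4 := h.symm b' a'
      refine ⟨a, a', inP ha, mem2 a (by linarith) (by linarith), inP ha',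
        mem2 a' (by linarith) (by linarith), by linarith⟩
    push Not at hc1 hc2
    obtain ⟨x, hx1, hx2, hx3⟩ := h.exit hr₁ (inP ha) (inP ha') (fun u v hu hv => by
      rw [haa]; exact pm u v hu hv) m1 hc1
    obtain ⟨y, hy1, hy2, hy3⟩ := h.exit hr₂ (inQ hb) (inQ hb') (fun u v hu hv => by
      rw [hbb]; exact qm u v hu hv) m2 (by rw [h.symm b a]; exact hc2)
    have s1 := h.symm b y
    have s2 := h.symm y a
    have s3 := h.symm b a
    have hy3' : d a y + d y b = d a b := by linarith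
    have hle' : d a y ≤ d a x := by linarith
    have hxy := h.on_seg hx3 hy3' hle'
    have s4 := h.symm x y
    have n1 := h.nonneg x b
    have n2 := h.nonneg a y
    have n3 := h.nonneg x y
    refine ⟨x, y, hx1, ?_, ?_, hy1, by linarith⟩
    · -- `x` lies between `y` and `b`
      have e1 := inQ hb
      have e2 : d y b = d y x + d x b := by linarith
      rcases h.four' c₂ x y b with h5 | h5 <;> linarith
    · have e1 := inP ha
      have e2 : d a x = d a y + d y x := by linarith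
      have s5 := h.symm y a
      rcases h.four' c₁ y a x with h5 | h5 <;> linarith [h.symm x a]

end Conv

end Pool.Agent.H221R2.TolNest
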